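import Pool.Agent.Y57.HS.Traj2
import Pool.Agent.Q263.MD.Dig

/-!
# Trajectories of generalised Collatz maps at the values of polynomials at the integers with restricted digits

The proofs follow `Pool.Agent.Y57.HS.Traj` and `Pool.Agent.Y57.HS.Traj2`, with the equidistribution of the
integers with restricted digits in place of that of the integers obtained by few changes of digits.
-/

set_option autoImplicit false

namespace Pool.Agent.Q263.MG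

open Finset Filter Polynomial
open Pool.Agent.Y927.GP Pool.Agent.H319R2.M
open Pool.Agent.Y57.HS (classes)
open Pool.Agent.Q263.MD (Dig Dig_ge equi)

/-- few integers have small values -/
lemma few_low {f : ℤ[X]} (hd : 1 ≤ f.natDegree) : ∃ C : ℝ, 0 < C ∧ ∀ Z : ℝ, 1 ≤ Z →
    ∀ A : Finset ℕ, (∀ n ∈ A, |((f.eval (n : ℤ) : ℤ) : ℝ)| < Z) → (A.card : ℝ) ≤ C * Z ^ (1 / (f.natDegree : ℝ)) := by
  classical
  obtain ⟨C, hC, h⟩ := few_small hd
  refine ⟨C, hC, fun Z hZ A hz => ?_⟩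
  have h1 := h Z hZ (A.image (fun n : ℕ => (n : ℤ))) (by
    intro n hn
    rw [mem_image] at hn
    obtain ⟨S, hS, rfl⟩ := hn
    exact hz S hS)
  rwa [card_image_of_injective _ Nat.cast_injective] at h1

/-- the law for sets of residues -/
lemma law (q : ℕ) (hq : 2 ≤ q) (ε : ℝ) (hε : 0 < ε) : ∃ c K : ℝ, 0 < c ∧ 0 < K ∧ ∀ k x : ℕ, 1 ≤ x →
    Real.log x ≤ c * k → Nat.Coprime q x → ∀ D : Fin k → Finset ℕ, (∀ i, ∀ d ∈ D i, d < q) →
    (∀ i, 2 ≤ (D i).card) → ∀ R : Finset ℕ,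
    (((Dig q k D).filter (fun n => n % x ∈ R)).card : ℝ) ≤
      K * (x : ℝ) ^ ε * ((R.card : ℝ) / x) * (Dig q k D).card := by
  classical
  obtain ⟨B, K, hB, h⟩ := equi hq ε hε
  have hlq : 0 < Real.log q := Real.log_pos (by exact_mod_cast (by omega : 1 < q))
  have hB0 : (0 : ℝ) < B := by exact_mod_cast hB
  refine ⟨Real.log q / B, max K 1, by positivity, by positivity, fun k x hx hlog hc D hD hD2 R => ?_⟩
  have hx0 : (0 : ℝ) < x := by exact_mod_cast hx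
  have hxB : x ^ B ≤ q ^ k := by
    have h1 : (B : ℝ) * Real.log x ≤ k * Real.log q := by
      have h2 : (B : ℝ) * Real.log x ≤ B * (Real.log q / B * k) :=
        mul_le_mul_of_nonneg_left hlog hB0.le
      have e1 : (B : ℝ) * (Real.log q / B * k) = k * Real.log q := by field_simp
      linarith
    have h3 : Real.log ((x : ℝ) ^ B) ≤ Real.log ((q : ℝ) ^ k) := by
      rw [Real.log_pow, Real.log_pow]
      exact h1
    have hq0 : (0 : ℝ) < q := by exact_mod_cast (by omega : 0 < q)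
    have h4 : (x : ℝ) ^ B ≤ (q : ℝ) ^ k := (Real.log_le_log_iff (by positivity) (by positivity)).1 h3
    exact_mod_cast h4
  have hsub : (Dig q k D).filter (fun n => n % x ∈ R) ⊆
      R.biUnion (fun r => (Dig q k D).filter (fun n => n ≡ r [MOD x])) := by
    intro n hn
    rw [mem_filter] at hn
    rw [mem_biUnion]
    refine ⟨n % x, hn.2, ?_⟩
    rw [mem_filter]
    exact ⟨hn.1, (Nat.mod_modEq _ _).symm⟩
  have h1 : (((Dig q k D).filter (fun n => n % x ∈ R)).card : ℝ) ≤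
      ∑ r ∈ R, (((Dig q k D).filter (fun n => n ≡ r [MOD x])).card : ℝ) := by
    have := (card_le_card hsub).trans card_biUnion_le
    exact_mod_cast this
  refine h1.trans ((sum_le_sum fun r _ => h x hx hc k hxB D hD hD2 r).trans ?_)
  rw [sum_const, nsmul_eq_mul]
  have h2 : K ≤ max K 1 := le_max_left _ _
  have h3 : 0 ≤ (x : ℝ) ^ ε * (((Dig q k D).card : ℝ) / x) := by positivity
  calc (R.card : ℝ) * (K * (x : ℝ) ^ ε * (((Dig q k D).card : ℝ) / x))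
      = K * ((R.card : ℝ) * ((x : ℝ) ^ ε * (((Dig q k D).card : ℝ) / x))) := by ring
    _ ≤ max K 1 * ((R.card : ℝ) * ((x : ℝ) ^ ε * (((Dig q k D).card : ℝ) / x))) :=
        mul_le_mul_of_nonneg_right h2 (by positivity)
    _ = _ := by ring

/-- **Trajectories of the values of polynomials at the integers with restricted digits.** -/
theorem traj {g : GM} {b : ℤ → ℤ} {e : ℤ → ℕ} {C : Finset (ℤ × ℕ)} {ρ : ℤ × ℕ → ℝ} (hf : g.Fac b e)
    (hC : g.Cls e C ρ) {f : ℤ[X]} (hdeg : 1 ≤ f.natDegree) (q : ℕ) (hq : 2 ≤ q) (hcop : Nat.Coprime q g.d)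
    {ε : ℝ} (hε : 0 < ε) (H : ℝ) : ∃ c δ : ℝ, 0 < c ∧ 0 < δ ∧ ∃ y₀ : ℕ, ∀ r y : ℕ, y₀ ≤ y →
    ∀ Dg : Fin r → Finset ℕ, (∀ i, ∀ d ∈ Dg i, d < q) → (∀ i, 2 ≤ (Dg i).card) →
    ∀ A ⊆ Dig q r Dg, (∀ S ∈ A, f.eval (S : ℤ) ∈ g.SC C ∧
      ∃ Y : ℝ, y ≤ Y ∧ Y ≤ Real.exp (c * r) ∧ ¬ (Real.exp (c * r) ^ H ≤ |((f.eval (S : ℤ) : ℤ) : ℝ)| ∧
        Typ g (mu g C ρ) ε Y (f.eval (S : ℤ)))) →
    (A.card : ℝ) ≤ (y : ℝ) ^ (-δ) * ((Dig q r Dg).card : ℝ) := by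
  classical
  set μ := mu g C ρ with hμ
  have hd2 := g.two_le
  have hd1 : (1 : ℝ) < g.d := by have := g.dr; linarith
  have hd0 : (0 : ℝ) < g.d := by linarith
  have hL : 0 < Real.log g.d := Real.log_pos hd1
  have hl2 : 0 < Real.log 2 := Real.log_pos (by norm_num)
  set κ : ℝ := max 0 (-μ / Real.log g.d) with hκdef
  have hκ0 : 0 ≤ κ := le_max_left _ _
  have hκ : -μ ≤ κ * Real.log g.d := by
    have h1 : -μ / Real.log g.d ≤ κ := le_max_right _ _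
    rwa [div_le_iff₀ hL] at h1
  set D : ℝ := max (κ + 4) H with hD
  have hD4 : κ + 4 ≤ D := le_max_left _ _
  have hDH : H ≤ D := le_max_right _ _
  have hD0 : 0 < D := by linarith
  set ε1 : ℝ := min ε 1 with hε1
  have hε10 : 0 < ε1 := lt_min hε one_pos
  have hε1ε : ε1 ≤ ε := min_le_left _ _
  have hε1β : ε1 ≤ (D - κ) / 4 := by
    have : ε1 ≤ 1 := min_le_right _ _
    linarith
  obtain ⟨δ1, K1, hδ10, hδ11, hK1, hcls⟩ := classes hf hC hdeg (η := ε1 / 4 * Real.log g.d) (by positivity)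
  obtain ⟨cL, K2, hcL, hK2, hlaw⟩ := law q hq (δ1 / 2) (by positivity)
  obtain ⟨C3, hC3, hlow⟩ := few_low hdeg
  obtain ⟨Y0, hY01, hlarge⟩ := large g.d hd2 (show (0 : ℝ) < 1 by norm_num) (show 0 < ε1 / 4 by positivity)
    (show 0 < (D - κ) / 2 by linarith) g.R_nonneg 0
  set c : ℝ := min cL (Real.log 2 / (2 * D + 2)) with hc
  have hc0 : 0 < c := lt_min hcL (by positivity)
  have hccL : c ≤ cL := min_le_left _ _
  have hcD : c * D ≤ Real.log 2 / 2 ∧ c ≤ Real.log 2 / 2 := by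
    have h1 : c ≤ Real.log 2 / (2 * D + 2) := min_le_right _ _
    rw [le_div_iff₀ (by linarith)] at h1
    constructor
    · nlinarith
    · nlinarith
  obtain ⟨ϑ, hϑ⟩ : ∃ ϑ : ℝ, ϑ = (g.d : ℝ) ^ (-(δ1 / 2)) := ⟨_, rfl⟩
  have hϑ0 : 0 < ϑ := by rw [hϑ]; positivity
  have hϑ1 : ϑ < 1 := by
    rw [hϑ]
    exact Real.rpow_lt_one_of_one_lt_of_neg hd1 (by linarith)
  obtain ⟨B, hB⟩ : ∃ B : ℝ, B = C3 + K2 * K1 * (g.d : ℝ) ^ (δ1 / 2) / (1 - ϑ) := ⟨_, rfl⟩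
  have h1ϑ : 0 < 1 - ϑ := by linarith
  have hB0 : 0 < B := by rw [hB]; positivity
  obtain ⟨δ, hδ⟩ : ∃ δ : ℝ, δ = min (δ1 / 4) (1 / 2) := ⟨_, rfl⟩
  have hδ0 : 0 < δ := by rw [hδ]; exact lt_min (by positivity) (by norm_num)
  have hev : ∀ᶠ y : ℕ in atTop, (1 : ℝ) ≤ y ∧ Y0 ≤ y ∧ B ≤ (y : ℝ) ^ δ := by
    have h1 : Tendsto (fun x : ℕ => (x : ℝ)) atTop atTop := tendsto_natCast_atTop_atTop
    have h2 : Tendsto (fun x : ℕ => (x : ℝ) ^ δ) atTop atTop := (tendsto_rpow_atTop hδ0).comp h1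
    filter_upwards [h1.eventually (eventually_ge_atTop _), h1.eventually (eventually_ge_atTop _),
      h2.eventually (eventually_ge_atTop _)] with y a1 a2 a4
    exact ⟨a1, a2, a4⟩
  obtain ⟨y₀, hy₀⟩ := eventually_atTop.1 hev
  refine ⟨c, δ, hc0, hδ0, y₀, fun r y hy Dg hDg hDg2 A hA hbad => ?_⟩
  obtain ⟨hy1, hyY0, hyB⟩ := hy₀ y hy
  have hyp : (0 : ℝ) < y := by linarith
  have hch0 : (0 : ℝ) ≤ ((Dig q r Dg).card : ℝ) := Nat.cast_nonneg _
  rcases A.eq_empty_or_nonempty with hA0 | ⟨S₀, hS₀⟩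
  · rw [hA0, card_empty, Nat.cast_zero]
    positivity
  have hyr : (y : ℝ) ≤ Real.exp (c * r) := by
    obtain ⟨-, Y, h1, h2, -⟩ := hbad S₀ hS₀
    exact h1.trans h2
  have hr0 : (0 : ℝ) ≤ r := Nat.cast_nonneg _
  set M : ℕ := ⌊c * r / Real.log g.d⌋₊ + 1 with hM
  set N0 : ℕ := Nat.log g.d y with hN0
  have hy0' : y ≠ 0 := by
    intro h
    rw [h] at hy1
    norm_num at hy1
  set W : ℕ → Finset ℤ := fun n1 => (Ioc (-1 : ℤ) (-1 + (g.d : ℤ) ^ n1)).filter (fun n => ∃ x : ℤ,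
    x ≡ n [ZMOD (g.d : ℤ) ^ n1] ∧ f.eval x ∈ g.SC C ∧ Unb g μ (ε1 / 4 * Real.log g.d) n1 (f.eval x)) with hW
  set R : ℕ → Finset ℕ := fun n1 => (W n1).image Int.toNat with hR
  have hRcard : ∀ n1, ((R n1).card : ℝ) ≤ K1 * ((g.d : ℝ) ^ n1) ^ (1 - δ1) := by
    intro n1
    have h1 : ((R n1).card : ℝ) ≤ (W n1).card := by exact_mod_cast card_image_le
    refine h1.trans (hcls n1 (W n1) (filter_subset _ _) ?_)
    intro n hn
    rw [hW] at hn
    exact (mem_filter.1 hn).2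
  set A1 : Finset ℕ := A.filter (fun S : ℕ => |((f.eval (S : ℤ) : ℤ) : ℝ)| < Real.exp (c * r) ^ D) with hA1
  have hsub : A ⊆ A1 ∪ (Ico N0 M).biUnion (fun n1 =>
      (Dig q r Dg).filter (fun S => S % g.d ^ n1 ∈ R n1)) := by
    intro S hS
    rw [mem_union]
    by_cases hsm : |((f.eval (S : ℤ) : ℤ) : ℝ)| < Real.exp (c * r) ^ D
    · left
      rw [hA1, mem_filter]
      exact ⟨hS, hsm⟩
    right
    push Not at hsm
    obtain ⟨hSC, Y, hY1, hY2, hnT⟩ := hbad S hS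
    have hexp1 : 1 ≤ Real.exp (c * r) := Real.one_le_exp (by positivity)
    have hT : ¬ Typ g μ ε Y (f.eval (S : ℤ)) := by
      intro h
      apply hnT
      refine ⟨?_, h⟩
      exact (Real.rpow_le_rpow_of_exponent_le hexp1 hDH).trans hsm
    have hY : 1 ≤ Y := hy1.trans hY1
    obtain ⟨n1, hn1, hn2, -⟩ := scale g.d hd2 Y hY
    obtain ⟨-, hYε, hRN⟩ := hlarge Y (hyY0.trans hY1) n1 hn1 hn2
    have hU : Unb g μ (ε1 / 4 * Real.log g.d) n1 (f.eval (S : ℤ)) := by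
      by_contra hU
      apply hT
      apply typ_of g hκ0 hκ hε10 hε1ε hε1β hY hn1 hn2 hYε hRN _ hU
      refine le_trans ?_ hsm
      calc Y ^ (D - ε1) ≤ Y ^ D := Real.rpow_le_rpow_of_exponent_le hY (by linarith)
        _ ≤ Real.exp (c * r) ^ D := Real.rpow_le_rpow (by linarith) hY2 hD0.le
    rw [mem_biUnion]
    refine ⟨n1, ?_, ?_⟩
    · rw [mem_Ico]
      constructor
      · have h1 : g.d ^ N0 ≤ y := Nat.pow_log_le_self _ hy0'
        have h2 : ((g.d ^ N0 : ℕ) : ℝ) < (g.d : ℝ) ^ (n1 + 1) := by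
          have : ((g.d ^ N0 : ℕ) : ℝ) ≤ y := by exact_mod_cast h1
          linarith
        have h3 : g.d ^ N0 < g.d ^ (n1 + 1) := by exact_mod_cast h2
        have h4 := (Nat.pow_lt_pow_iff_right (by omega : 1 < g.d)).1 h3
        omega
      · rw [hM]
        have h1 : (n1 : ℝ) ≤ c * r / Real.log g.d := by
          rw [le_div_iff₀ hL]
          have h2 : (g.d : ℝ) ^ n1 ≤ Real.exp (c * r) := hn1.trans hY2
          have h3 := Real.log_le_log (by positivity) h2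
          rw [Real.log_pow, Real.log_exp] at h3
          exact h3
        have h2 : n1 ≤ ⌊c * r / Real.log g.d⌋₊ := Nat.le_floor h1
        omega
    · rw [mem_filter]
      refine ⟨hA hS, ?_⟩
      rw [hR]
      simp only [mem_image]
      obtain ⟨z, hz⟩ : ∃ z, z = S % g.d ^ n1 := ⟨_, rfl⟩
      have h4 : z < g.d ^ n1 := by rw [hz]; exact Nat.mod_lt _ (by positivity)
      rw [← hz]
      refine ⟨(z : ℤ), ?_, Int.toNat_natCast _⟩
      rw [hW]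
      simp only [mem_filter, mem_Ioc]
      have h3 : ((g.d : ℤ) ^ n1) = ((g.d ^ n1 : ℕ) : ℤ) := by push_cast; ring
      refine ⟨⟨by omega, by rw [h3]; omega⟩, (S : ℤ), ?_, hSC, hU⟩
      rw [h3, hz, Int.natCast_mod]
      exact (Int.mod_modEq _ _).symm
  -- the sizes
  have hA1c : (A1.card : ℝ) ≤ C3 * (y : ℝ) ^ (-(1 : ℝ)) * ((Dig q r Dg).card : ℝ) := by
    have hexp1 : 1 ≤ Real.exp (c * r) := Real.one_le_exp (by positivity)
    have hZ1 : 1 ≤ Real.exp (c * r) ^ D := Real.one_le_rpow hexp1 hD0.le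
    have h1 := hlow (Real.exp (c * r) ^ D) hZ1 A1 (by
      intro S hS
      rw [hA1, mem_filter] at hS
      exact hS.2)
    have h2 : (Real.exp (c * r) ^ D) ^ (1 / (f.natDegree : ℝ)) ≤ Real.exp (c * r) ^ D := by
      conv_rhs => rw [← Real.rpow_one (Real.exp (c * r) ^ D)]
      apply Real.rpow_le_rpow_of_exponent_le hZ1
      have : (1 : ℝ) ≤ f.natDegree := by exact_mod_cast hdeg
      rw [div_le_one (by linarith)]
      exact this
    have h3 : Real.exp (c * r) ^ D * y ≤ 2 ^ r := by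
      calc Real.exp (c * r) ^ D * y ≤ Real.exp (c * r) ^ D * Real.exp (c * r) := by gcongr
        _ = Real.exp ((c * D + c) * r) := by
            rw [← Real.exp_mul, ← Real.exp_add]
            congr 1
            ring
        _ ≤ Real.exp (Real.log 2 * r) := by
            apply Real.exp_le_exp.2
            apply mul_le_mul_of_nonneg_right _ hr0
            linarith [hcD.1, hcD.2]
        _ = 2 ^ r := by
            rw [mul_comm, Real.exp_nat_mul, Real.exp_log (by norm_num)]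
    have h4 : (2 : ℝ) ^ r ≤ ((Dig q r Dg).card : ℝ) := by exact_mod_cast Dig_ge Dg hDg hDg2
    have h5 : Real.exp (c * r) ^ D ≤ (y : ℝ) ^ (-(1 : ℝ)) * ((Dig q r Dg).card : ℝ) := by
      rw [Real.rpow_neg_one, ← div_eq_inv_mul, le_div_iff₀ hyp]
      exact h3.trans h4
    calc (A1.card : ℝ) ≤ C3 * (Real.exp (c * r) ^ D) ^ (1 / (f.natDegree : ℝ)) := h1
      _ ≤ C3 * ((y : ℝ) ^ (-(1 : ℝ)) * ((Dig q r Dg).card : ℝ)) := by
          apply mul_le_mul_of_nonneg_left _ hC3.le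
          exact h2.trans h5
      _ = _ := by ring
  have hterm : ∀ n1 ∈ Ico N0 M, (((Dig q r Dg).filter
      (fun S => S % g.d ^ n1 ∈ R n1)).card : ℝ) ≤ K2 * K1 * ϑ ^ n1 * ((Dig q r Dg).card : ℝ) := by
    intro n1 hn1
    rw [mem_Ico] at hn1
    have hcast : (((g.d ^ n1 : ℕ)) : ℝ) = (g.d : ℝ) ^ n1 := by push_cast; ring
    have hp : (0 : ℝ) < (g.d : ℝ) ^ n1 := by positivity
    have h1 := hlaw r (g.d ^ n1) (Nat.one_le_pow _ _ (by omega)) (by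
      rw [hcast, Real.log_pow]
      have h2 : n1 ≤ ⌊c * r / Real.log g.d⌋₊ := by omega
      have h3 : (n1 : ℝ) ≤ c * r / Real.log g.d := (Nat.cast_le.2 h2).trans (Nat.floor_le (by positivity))
      rw [le_div_iff₀ hL] at h3
      exact h3.trans (mul_le_mul_of_nonneg_right hccL hr0)) (Nat.Coprime.pow_right _ hcop) Dg hDg hDg2 (R n1)
    refine h1.trans ?_
    apply mul_le_mul_of_nonneg_right _ hch0
    rw [hcast]
    calc K2 * ((g.d : ℝ) ^ n1) ^ (δ1 / 2) * (((R n1).card : ℝ) / (g.d : ℝ) ^ n1)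
        ≤ K2 * ((g.d : ℝ) ^ n1) ^ (δ1 / 2) * ((K1 * ((g.d : ℝ) ^ n1) ^ (1 - δ1)) / (g.d : ℝ) ^ n1) := by
          have := hRcard n1
          gcongr
      _ = K2 * K1 * (((g.d : ℝ) ^ n1) ^ (δ1 / 2) * (((g.d : ℝ) ^ n1) ^ (1 - δ1) * ((g.d : ℝ) ^ n1) ^ (-(1 : ℝ)))) := by
          rw [Real.rpow_neg_one]
          ring
      _ = K2 * K1 * ((g.d : ℝ) ^ n1) ^ (-(δ1 / 2)) := by
          rw [← Real.rpow_add hp, ← Real.rpow_add hp]
          congr 2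
          ring
      _ = K2 * K1 * ϑ ^ n1 := by
          rw [hϑ, ← Real.rpow_natCast, ← Real.rpow_natCast, ← Real.rpow_mul hd0.le, ← Real.rpow_mul hd0.le]
          congr 2
          ring
  have hcard : (A.card : ℝ) ≤ (A1.card : ℝ) + ∑ n1 ∈ Ico N0 M, (((Dig q r Dg).filter
      (fun S => S % g.d ^ n1 ∈ R n1)).card : ℝ) := by
    have h1 := (card_le_card hsub).trans ((card_union_le _ _).trans (Nat.add_le_add_left card_biUnion_le _))
    exact_mod_cast h1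
  have hgeo : ∑ n1 ∈ Ico N0 M, ϑ ^ n1 ≤ ϑ ^ N0 / (1 - ϑ) := geom_sum_Ico_le_of_lt_one hϑ0.le hϑ1
  have hN0y : ϑ ^ N0 ≤ (g.d : ℝ) ^ (δ1 / 2) * (y : ℝ) ^ (-(δ1 / 2)) := by
    have h2 : y < g.d ^ (N0 + 1) := Nat.lt_pow_succ_log_self (by omega) y
    have h5 : (y : ℝ) < (g.d : ℝ) ^ (N0 + 1) := by exact_mod_cast h2
    have h6 : ((g.d : ℝ) ^ (N0 + 1)) ^ (-(δ1 / 2)) ≤ (y : ℝ) ^ (-(δ1 / 2)) :=
      Real.rpow_le_rpow_of_nonpos hyp h5.le (by linarith)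
    have h7 : ϑ ^ N0 = (g.d : ℝ) ^ (δ1 / 2) * ((g.d : ℝ) ^ (N0 + 1)) ^ (-(δ1 / 2)) := by
      rw [hϑ, ← Real.rpow_natCast, ← Real.rpow_natCast, ← Real.rpow_mul hd0.le, ← Real.rpow_mul hd0.le,
        ← Real.rpow_add hd0]
      congr 1
      push_cast
      ring
    rw [h7]
    exact mul_le_mul_of_nonneg_left h6 (by positivity)
  have hsum : ∑ n1 ∈ Ico N0 M, (((Dig q r Dg).filter
      (fun S => S % g.d ^ n1 ∈ R n1)).card : ℝ) ≤
      K2 * K1 * (g.d : ℝ) ^ (δ1 / 2) / (1 - ϑ) * (y : ℝ) ^ (-(δ1 / 2)) * ((Dig q r Dg).card : ℝ) := by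
    refine (sum_le_sum hterm).trans ?_
    rw [← sum_mul, ← mul_sum]
    apply mul_le_mul_of_nonneg_right _ hch0
    calc K2 * K1 * ∑ n1 ∈ Ico N0 M, ϑ ^ n1 ≤ K2 * K1 * (ϑ ^ N0 / (1 - ϑ)) :=
          mul_le_mul_of_nonneg_left hgeo (by positivity)
      _ ≤ K2 * K1 * (((g.d : ℝ) ^ (δ1 / 2) * (y : ℝ) ^ (-(δ1 / 2))) / (1 - ϑ)) := by gcongr
      _ = _ := by ring
  have hfin1 : (y : ℝ) ^ (-(1 : ℝ)) ≤ (y : ℝ) ^ (-(2 * δ)) := by
    apply Real.rpow_le_rpow_of_exponent_le hy1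
    have : δ ≤ 1 / 2 := by rw [hδ]; exact min_le_right _ _
    linarith
  have hfin2 : (y : ℝ) ^ (-(δ1 / 2)) ≤ (y : ℝ) ^ (-(2 * δ)) := by
    apply Real.rpow_le_rpow_of_exponent_le hy1
    have : δ ≤ δ1 / 4 := by rw [hδ]; exact min_le_left _ _
    linarith
  calc (A.card : ℝ) ≤ C3 * (y : ℝ) ^ (-(1 : ℝ)) * ((Dig q r Dg).card : ℝ) +
        K2 * K1 * (g.d : ℝ) ^ (δ1 / 2) / (1 - ϑ) * (y : ℝ) ^ (-(δ1 / 2)) * ((Dig q r Dg).card : ℝ) :=
        hcard.trans (add_le_add hA1c hsum)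
    _ ≤ C3 * (y : ℝ) ^ (-(2 * δ)) * ((Dig q r Dg).card : ℝ) +
        K2 * K1 * (g.d : ℝ) ^ (δ1 / 2) / (1 - ϑ) * (y : ℝ) ^ (-(2 * δ)) * ((Dig q r Dg).card : ℝ) := by
        have h0 : 0 ≤ K2 * K1 * (g.d : ℝ) ^ (δ1 / 2) / (1 - ϑ) := by positivity
        gcongr
    _ = B * (y : ℝ) ^ (-(2 * δ)) * ((Dig q r Dg).card : ℝ) := by rw [hB]; ring
    _ ≤ (y : ℝ) ^ δ * (y : ℝ) ^ (-(2 * δ)) * ((Dig q r Dg).card : ℝ) := by gcongr
    _ = _ := by
        rw [← Real.rpow_add hyp]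
        congr 2
        ring

/-- the law for exponentially many steps -/
theorem traj_exp {g : GM} {b : ℤ → ℤ} {e : ℤ → ℕ} {C : Finset (ℤ × ℕ)} {ρ : ℤ × ℕ → ℝ} (hf : g.Fac b e)
    (hC : g.Cls e C ρ) {f : ℤ[X]} (hdeg : 1 ≤ f.natDegree) (q : ℕ) (hq : 2 ≤ q) (hcop : Nat.Coprime q g.d)
    {ε : ℝ} (hε : 0 < ε) (H : ℝ) : ∃ c δ : ℝ, 0 < c ∧ 0 < δ ∧ ∃ k₀ : ℕ, ∀ k : ℕ, k₀ ≤ k →
    ∀ D : Fin k → Finset ℕ, (∀ i, ∀ d ∈ D i, d < q) → (∀ i, 2 ≤ (D i).card) →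
    ∀ A ⊆ Dig q k D, (∀ S ∈ A, f.eval (S : ℤ) ∈ g.SC C ∧
      ¬ (Real.exp (c * k) ^ H ≤ |((f.eval (S : ℤ) : ℤ) : ℝ)| ∧
        Typ g (mu g C ρ) ε (Real.exp (c * k)) (f.eval (S : ℤ)))) →
    (A.card : ℝ) ≤ Real.exp (-(δ * k)) * ((Dig q k D).card : ℝ) := by
  obtain ⟨c, δ, hc, hδ, y₀, h⟩ := traj hf hC hdeg q hq hcop hε H
  have hev : ∀ᶠ s : ℕ in atTop, (y₀ : ℝ) + 1 ≤ Real.exp (c * s) ∧ (2 : ℝ) ^ δ ≤ Real.exp (c * δ / 2 * s) := by
    have h1 : Tendsto (fun s : ℕ => Real.exp (c * s)) atTop atTop :=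
      Real.tendsto_exp_atTop.comp (tendsto_natCast_atTop_atTop.const_mul_atTop hc)
    have h2 : Tendsto (fun s : ℕ => Real.exp (c * δ / 2 * s)) atTop atTop :=
      Real.tendsto_exp_atTop.comp (tendsto_natCast_atTop_atTop.const_mul_atTop (by positivity))
    filter_upwards [h1.eventually (eventually_ge_atTop _), h2.eventually (eventually_ge_atTop _)] with s a1 a2
    exact ⟨a1, a2⟩
  obtain ⟨s₀, hs₀⟩ := eventually_atTop.1 hev
  refine ⟨c, c * δ / 2, hc, by positivity, s₀, fun s hs D hD hD2 A hA hbad => ?_⟩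
  obtain ⟨h1, h2⟩ := hs₀ s hs
  have hE1 : 1 ≤ Real.exp (c * s) := Real.one_le_exp (by positivity)
  set y := ⌊Real.exp (c * s)⌋₊ with hy
  have hyle : (y : ℝ) ≤ Real.exp (c * s) := Nat.floor_le (by positivity)
  have hylt : Real.exp (c * s) < y + 1 := Nat.lt_floor_add_one _
  have hy0 : y₀ ≤ y := by
    rw [hy]
    apply Nat.le_floor
    linarith
  have hy1 : (1 : ℝ) ≤ y := by
    have : 1 ≤ y := by
      rw [hy]
      apply Nat.le_floor
      simpa using hE1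
    exact_mod_cast this
  have h3 := h s y hy0 D hD hD2 A hA (fun S hS => ⟨(hbad S hS).1, Real.exp (c * s), hyle, le_rfl, (hbad S hS).2⟩)
  refine h3.trans ?_
  apply mul_le_mul_of_nonneg_right _ (Nat.cast_nonneg _)
  have h4 : Real.exp (c * s) / 2 ≤ y := by linarith
  have h5 : (y : ℝ) ^ (-δ) ≤ (Real.exp (c * s) / 2) ^ (-δ) :=
    Real.rpow_le_rpow_of_nonpos (by positivity) h4 (by linarith)
  refine h5.trans ?_
  rw [Real.div_rpow (by positivity) (by norm_num), Real.rpow_neg (by norm_num : (0 : ℝ) ≤ 2), div_inv_eq_mul, ← Real.exp_mul]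
  calc Real.exp (c * s * -δ) * 2 ^ δ ≤ Real.exp (c * s * -δ) * Real.exp (c * δ / 2 * s) :=
        mul_le_mul_of_nonneg_left h2 (Real.exp_pos _).le
    _ = Real.exp (-(c * δ / 2 * s)) := by
        rw [← Real.exp_add]
        congr 1
        ring

/-- Contracting classes: the trajectory comes down. -/
theorem drop {g : GM} {b : ℤ → ℤ} {e : ℤ → ℕ} {C : Finset (ℤ × ℕ)} {ρ : ℤ × ℕ → ℝ} (hf : g.Fac b e)
    (hC : g.Cls e C ρ) (hμ : mu g C ρ < 0) {f : ℤ[X]} (hdeg : 1 ≤ f.natDegree) (q : ℕ) (hq : 2 ≤ q)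
    (hcop : Nat.Coprime q g.d) : ∃ c c₂ δ : ℝ, 0 < c ∧ 0 < c₂ ∧ 0 < δ ∧ ∃ k₀ : ℕ, ∀ k : ℕ, k₀ ≤ k →
    ∀ D : Fin k → Finset ℕ, (∀ i, ∀ d ∈ D i, d < q) → (∀ i, 2 ≤ (D i).card) →
    ∀ A ⊆ Dig q k D, (∀ S ∈ A, f.eval (S : ℤ) ∈ g.SC C ∧
      ¬ (Real.exp (c * k) ≤ |((f.eval (S : ℤ) : ℤ) : ℝ)| ∧
        ∃ j : ℕ, (j : ℝ) ≤ c * k / Real.log g.d ∧ |((g.T^[j] (f.eval (S : ℤ)) : ℤ) : ℝ)| ≤
          Real.exp (-(c₂ * k)) * |((f.eval (S : ℤ) : ℤ) : ℝ)|)) →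
    (A.card : ℝ) ≤ Real.exp (-(δ * k)) * ((Dig q k D).card : ℝ) := by
  have hd2 := g.two_le
  have hd1 : (1 : ℝ) < g.d := by have := g.dr; linarith
  have hd0 : (0 : ℝ) < g.d := by linarith
  have hL : 0 < Real.log g.d := Real.log_pos hd1
  obtain ⟨μ, hμdef⟩ : ∃ μ, μ = mu g C ρ := ⟨_, rfl⟩
  rw [← hμdef] at hμ
  obtain ⟨c, δ, hc, hδ, s₀, h⟩ := traj_exp hf hC hdeg q hq hcop (ε := -μ / (2 * Real.log g.d))
    (by apply div_pos <;> linarith) 1
  rw [← hμdef] at h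
  have hev : ∀ᶠ s : ℕ in atTop, -μ ≤ c * (-μ) / (4 * Real.log g.d) * s := by
    have h2 : Tendsto (fun s : ℕ => c * (-μ) / (4 * Real.log g.d) * (s : ℝ)) atTop atTop :=
      tendsto_natCast_atTop_atTop.const_mul_atTop (by
        apply div_pos
        · exact mul_pos hc (by linarith)
        · positivity)
    exact h2.eventually (eventually_ge_atTop _)
  obtain ⟨s₁, hs₁⟩ := eventually_atTop.1 hev
  refine ⟨c, c * (-μ) / (4 * Real.log g.d), δ, hc, ?_, hδ, max s₀ s₁, fun s hs D hD hD2 A hA hbad => ?_⟩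
  · apply div_pos
    · exact mul_pos hc (by linarith)
    · positivity
  apply h s ((le_max_left _ _).trans hs) D hD hD2 A hA
  intro S hS
  obtain ⟨h1, h2⟩ := hbad S hS
  refine ⟨h1, fun h3 => h2 ?_⟩
  rw [Real.rpow_one] at h3
  obtain ⟨h4, h5⟩ := h3
  have hcs : 0 ≤ c * s / Real.log g.d := by positivity
  have hfl := Nat.floor_le hcs
  have hfl2 := Nat.lt_floor_add_one (c * s / Real.log g.d)
  refine ⟨h4, ⌊c * s / Real.log g.d⌋₊, hfl, ?_⟩
  set k := ⌊c * s / Real.log g.d⌋₊ with hk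
  have h6 := (h5 k (by
    have h7 : (k : ℝ) * Real.log g.d ≤ c * s := by
      rwa [le_div_iff₀ hL] at hfl
    calc (g.d : ℝ) ^ k = Real.exp (k * Real.log g.d) := by
          rw [Real.exp_nat_mul, Real.exp_log hd0]
      _ ≤ Real.exp (c * s) := Real.exp_le_exp.2 h7)).2
  refine h6.trans ?_
  apply mul_le_mul_of_nonneg_right _ (abs_nonneg _)
  rw [← Real.exp_mul, ← Real.exp_add]
  apply Real.exp_le_exp.2
  have h8 := hs₁ s ((le_max_right _ _).trans hs)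
  have h9 : (k : ℝ) * μ ≤ (c * s / Real.log g.d - 1) * μ := by
    apply mul_le_mul_of_nonpos_right _ hμ.le
    linarith
  have h10 : c * s * (-μ / (2 * Real.log g.d)) + (c * s / Real.log g.d - 1) * μ =
      -(2 * (c * (-μ) / (4 * Real.log g.d) * s)) - μ := by
    field_simp
    ring
  linarith

end Pool.Agent.Q263.MG
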